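import Pool.Agent.Helper42.RZ.St.S6b
import Pool.Agent.Helper42.RZ.St.S8

/-! # RZ-S13: extraction of a configuration with the right number of points -/

set_option autoImplicit false

open MeasureTheory Set Metric Filter Topology
open scoped ENNReal

namespace Pool.Agent.Helper51.RZ

open Pool.Agent.Helper42.RZ

theorem Cc_pos {s : ℝ} (h2 : s < 2) : 0 < Cc s := by
  unfold Cc
  have h : 0 < 2 - s := by linarith
  positivity

/-- `m(N') ≥ - c N' ^ (1 + s/2)` -/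
theorem m_lower {s : ℝ} (h0 : 0 < s) (h2 : s < 2) : ∃ c : ℝ, 0 < c ∧ ∀ N : ℕ,
    -(c * (N : ℝ) ^ (1 + s / 2)) ≤ minE s N - Cc s * (N : ℝ) ^ 2 := by
  obtain ⟨c, hc, h⟩ := apriori h0 h2
  refine ⟨c, hc, fun N => ?_⟩
  refine le_of_forall_pos_le_add fun ε hε => ?_
  obtain ⟨x, hx, hx'⟩ := exists_near (s := s) N hε
  have := h N x hx
  linarith

theorem eventually_dom {s c κ : ℝ} (h2 : s < 2) (hκ : 0 < κ) :
    ∃ T : ℝ, 1 ≤ T ∧ ∀ t : ℝ, T ≤ t → c * t ^ (1 + s / 2) ≤ κ * t ^ 2 := by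
  have h : Tendsto (fun t : ℝ => t ^ (1 - s / 2)) atTop atTop :=
    tendsto_rpow_atTop (by linarith)
  obtain ⟨T, hT⟩ := eventually_atTop.1 (h.eventually_ge_atTop (c / κ))
  refine ⟨max T 1, le_max_right _ _, fun t ht => ?_⟩
  have h1 : 1 ≤ t := (le_max_right _ _).trans ht
  have h3 : c / κ ≤ t ^ (1 - s / 2) := hT t ((le_max_left _ _).trans ht)
  have h4 : c ≤ κ * t ^ (1 - s / 2) := by
    rw [div_le_iff₀ hκ] at h3
    linarith
  have h5 : t ^ (1 - s / 2) * t ^ (1 + s / 2) = t ^ 2 := by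
    rw [← Real.rpow_add (by linarith), ← Real.rpow_natCast]
    congr 1
    push_cast
    ring
  calc c * t ^ (1 + s / 2) ≤ (κ * t ^ (1 - s / 2)) * t ^ (1 + s / 2) :=
        mul_le_mul_of_nonneg_right h4 (Real.rpow_nonneg (by linarith) _)
    _ = κ * t ^ 2 := by rw [mul_assoc, h5]

theorem extraction {s : ℝ} (h0 : 0 < s) (h2 : s < 2) {δ : ℝ} (hδ : 0 < δ) (hδ1 : δ < 1 / 4) :
    ∃ N₂ : ℕ, ∀ N₁ : ℕ, N₂ ≤ N₁ → ∀ N : ℕ, (1 - 2 * δ) * N₁ ≤ N → (N : ℝ) ≤ (1 - δ) * N₁ →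
      ∀ N' : ℕ, ((1 + δ) / (1 - 2 * δ)) ^ 4 * (minE s N - Cc s * (N : ℝ) ^ 2) ≤
        minE s N' - 2 * N₁ * Cc s * N' + Cc s * (N₁ : ℝ) ^ 2 := by
  obtain ⟨c, hc, hm⟩ := m_lower h0 h2
  have hC := Cc_pos h2
  set κ : ℝ := Cc s * (δ / (1 + δ)) ^ 2 with hκ
  have hκ0 : 0 < κ := by positivity
  obtain ⟨T, hT1, hT⟩ := eventually_dom (c := c) h2 hκ0
  refine ⟨⌈T⌉₊ + 4, fun N₁ hN₁ N hN hN' N' => ?_⟩
  have hN₁T : T + 4 ≤ (N₁ : ℝ) := by
    have h1 : ((⌈T⌉₊ + 4 : ℕ) : ℝ) ≤ N₁ := by exact_mod_cast hN₁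
    push_cast at h1
    have := Nat.le_ceil T
    linarith
  have h12 : (0 : ℝ) < 1 - 2 * δ := by linarith
  have hN2 : (2 : ℝ) ≤ N := by
    have : (1 - 2 * δ) * 4 ≤ (1 - 2 * δ) * N₁ := mul_le_mul_of_nonneg_left (by linarith) h12.le
    nlinarith
  have hN2' : 2 ≤ N := by exact_mod_cast hN2
  set q : ℝ := (1 + δ) / (1 - 2 * δ) with hq
  have hq1 : 1 ≤ q := by
    rw [hq, le_div_iff₀ h12]
    linarith
  have hmN : minE s N - Cc s * (N : ℝ) ^ 2 ≤ 0 := by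
    have h1 := minE_le h0 h2 N
    have h3 : 0 ≤ Cc s * N := by positivity
    nlinarith
  have hA : q ^ 4 * (minE s N - Cc s * (N : ℝ) ^ 2) ≤ 0 :=
    mul_nonpos_of_nonneg_of_nonpos (by positivity) hmN
  have hrw : minE s N' - 2 * N₁ * Cc s * N' + Cc s * (N₁ : ℝ) ^ 2 =
      (minE s N' - Cc s * (N' : ℝ) ^ 2) + Cc s * ((N' : ℝ) - N₁) ^ 2 := by ring
  rw [hrw]
  have hm' := hm N'
  rcases lt_or_ge N' N with h | h
  · -- few points
    have h1 : (N' : ℝ) ≤ N := by exact_mod_cast h.le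
    have h3 : c * (N' : ℝ) ^ (1 + s / 2) ≤ c * (N₁ : ℝ) ^ (1 + s / 2) := by
      refine mul_le_mul_of_nonneg_left ?_ hc.le
      refine Real.rpow_le_rpow (by positivity) ?_ (by linarith)
      have : (1 - δ) * N₁ ≤ N₁ := by nlinarith
      linarith
    have h4 := hT N₁ (by linarith)
    have h5 : κ * (N₁ : ℝ) ^ 2 ≤ Cc s * ((N' : ℝ) - N₁) ^ 2 := by
      have h6 : δ / (1 + δ) * N₁ ≤ N₁ - N' := by
        have h7 : δ / (1 + δ) ≤ δ := div_le_self hδ.le (by linarith)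
        have h8 : δ / (1 + δ) * N₁ ≤ δ * N₁ := mul_le_mul_of_nonneg_right h7 (by positivity)
        linarith
      have h9 : (δ / (1 + δ) * N₁) ^ 2 ≤ (N₁ - N') ^ 2 := pow_le_pow_left₀ (by positivity) h6 2
      calc κ * (N₁ : ℝ) ^ 2 = Cc s * (δ / (1 + δ) * N₁) ^ 2 := by rw [hκ]; ring
        _ ≤ Cc s * (N₁ - N') ^ 2 := mul_le_mul_of_nonneg_left h9 hC.le
        _ = _ := by ring
    linarith
  · rcases le_or_gt (N' : ℝ) ((1 + δ) * N₁) with h' | h'
    · -- comparable number of points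
      have h1 : (N : ℝ) ≤ N' := by exact_mod_cast h
      have hmono := minE_mono (s := s) hN2' h
      have hpos : 0 < (N : ℝ) * (N - 1) := mul_pos (by linarith) (by linarith)
      have hpos' : 0 < (N' : ℝ) * (N' - 1) := mul_pos (by linarith) (by linarith)
      rw [div_le_div_iff₀ hpos hpos'] at hmono
      -- `m(N) * N' (N' - 1) ≤ m(N') * N (N - 1)`
      have h3 : (minE s N - Cc s * (N : ℝ) ^ 2) * ((N' : ℝ) * (N' - 1)) ≤
          (minE s N' - Cc s * (N' : ℝ) ^ 2) * ((N : ℝ) * (N - 1)) := by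
        have h4 : Cc s * (N' : ℝ) ^ 2 * ((N : ℝ) * (N - 1)) ≤
            Cc s * (N : ℝ) ^ 2 * ((N' : ℝ) * (N' - 1)) := by
          have h5 : (N' : ℝ) ^ 2 * ((N : ℝ) * (N - 1)) ≤ (N : ℝ) ^ 2 * ((N' : ℝ) * (N' - 1)) := by
            have h6 : (N : ℝ) ^ 2 * ((N' : ℝ) * (N' - 1)) - (N' : ℝ) ^ 2 * ((N : ℝ) * (N - 1)) =
                N * N' * (N' - N) := by ring
            have h7 : 0 ≤ (N : ℝ) * N' * (N' - N) := by
              have : (0 : ℝ) ≤ N' - N := by linarith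
              positivity
            linarith
          have := mul_le_mul_of_nonneg_left h5 hC.le
          linarith
        linarith
      -- `N' (N' - 1) ≤ q ^ 4 * N (N - 1)`
      have h8 : (N' : ℝ) ≤ q * N := by
        have h9 : (1 + δ) * N₁ = q * ((1 - 2 * δ) * N₁) := by
          rw [hq, div_mul_eq_mul_div, eq_div_iff h12.ne']
          ring
        rw [h9] at h'
        exact h'.trans (mul_le_mul_of_nonneg_left hN (by linarith))
      have h10 : (N' : ℝ) - 1 ≤ q ^ 2 * (N - 1) := by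
        have h15 : 1 ≤ q * ((N : ℝ) - 1) := one_le_mul_of_one_le_of_one_le hq1 (by linarith)
        nlinarith [mul_nonneg (sub_nonneg.2 hq1) (by linarith : (0 : ℝ) ≤ q * ((N : ℝ) - 1) - 1)]
      have h11 : (N' : ℝ) * (N' - 1) ≤ q ^ 4 * ((N : ℝ) * (N - 1)) := by
        calc (N' : ℝ) * (N' - 1) ≤ (q * N) * (q ^ 2 * (N - 1)) :=
              mul_le_mul h8 h10 (by linarith) (by positivity)
          _ = q ^ 3 * (N * (N - 1)) := by ring
          _ ≤ q ^ 4 * (N * (N - 1)) :=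
              mul_le_mul_of_nonneg_right (pow_le_pow_right₀ hq1 (by norm_num)) hpos.le
      have h12' : q ^ 4 * (minE s N - Cc s * (N : ℝ) ^ 2) * ((N : ℝ) * (N - 1)) ≤
          (minE s N' - Cc s * (N' : ℝ) ^ 2) * ((N : ℝ) * (N - 1)) := by
        have := mul_le_mul_of_nonpos_left h11 hmN
        linarith
      have h13 := le_of_mul_le_mul_right h12' hpos
      have h14 : 0 ≤ Cc s * ((N' : ℝ) - N₁) ^ 2 := by positivity
      linarith
    · -- many points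
      have hN'0 : T ≤ (N' : ℝ) := by
        have : (N₁ : ℝ) ≤ (1 + δ) * N₁ := by nlinarith
        linarith
      have h4 := hT N' hN'0
      have h5 : κ * (N' : ℝ) ^ 2 ≤ Cc s * ((N' : ℝ) - N₁) ^ 2 := by
        have h6 : δ / (1 + δ) * N' ≤ N' - N₁ := by
          have h7 : (N₁ : ℝ) ≤ N' / (1 + δ) := by
            rw [le_div_iff₀ (by linarith)]
            linarith
          have h8 : δ / (1 + δ) * N' = N' - N' / (1 + δ) := by
            field_simp
            ring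
          linarith
        have h9 : (δ / (1 + δ) * N') ^ 2 ≤ ((N' : ℝ) - N₁) ^ 2 :=
          pow_le_pow_left₀ (by positivity) h6 2
        calc κ * (N' : ℝ) ^ 2 = Cc s * (δ / (1 + δ) * N') ^ 2 := by rw [hκ]; ring
          _ ≤ Cc s * ((N' : ℝ) - N₁) ^ 2 := mul_le_mul_of_nonneg_left h9 hC.le
      linarith

end Pool.Agent.Helper51.RZ
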